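import Pool.Agent.Helper85.AT.Defs

/-!
# AT: the determinant of a walk which exchanges the two ways of a region with a weight
-/

set_option autoImplicit false

namespace Pool.Agent.Helper2.AT

open Matrix Finset

section walk

variable {X : Type*} [Fintype X] [DecidableEq X]

/-- the matrix of a map -/
def Pm (σ : X → X) : Matrix X X ℂ := Matrix.of fun x y => if σ x = y then 1 else 0

/-- the matrix of a walk with a base point -/
def Wm (σ : X → X) (b : X) : Matrix X X ℂ := 1 - Pm σ + Matrix.single b b 1

theorem det_forward (B : Matrix X X ℂ) (T : X → ℕ) (h : ∀ i j, T j ≤ T i → B i j = 0) : (1 - B).det = 1 := by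
  have h1 : BlockTriangular (1 - B) T := by
    intro i j hij
    rw [Matrix.sub_apply, h i j hij.le, one_apply_ne (fun e => by rw [e] at hij; exact lt_irrefl _ hij), sub_zero]
  rw [h1.det]
  refine Finset.prod_eq_one fun k _ => ?_
  have h2 : (1 - B).toSquareBlock T k = 1 := by
    ext i j
    rw [toSquareBlock_def]
    simp only [of_apply, Matrix.sub_apply]
    rw [h i.1 j.1 (by rw [i.2, j.2]), sub_zero]
    simp [one_apply, Subtype.ext_iff]
  rw [h2, det_one]

/-- one circuit -/
theorem det_circuit {σ : X → X} (b : X) (h : ∀ x y, ∃ k : ℕ, σ^[k] x = y) : (Wm σ b).det = 1 := by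
  classical
  have e : Wm σ b = updateRow (1 - Pm σ) b ((1 - Pm σ) b + Pi.single b 1) := by
    ext x y
    by_cases hx : x = b
    · subst hx
      rw [updateRow_self]
      unfold Wm
      rw [Matrix.add_apply, Pi.add_apply]
      congr 1
      rw [Matrix.single_apply, Pi.single_apply]
      by_cases hy : y = x
      · rw [if_pos ⟨rfl, hy.symm⟩, if_pos hy]
      · rw [if_neg (fun h => hy h.2.symm), if_neg hy]
    · rw [updateRow_ne hx]
      unfold Wm
      rw [Matrix.add_apply, Matrix.single_apply, if_neg (fun h => hx h.1.symm), add_zero]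
  rw [e, det_updateRow_add, updateRow_eq_self]
  have h0 : (1 - Pm σ).det = 0 := by
    rw [← Matrix.exists_mulVec_eq_zero_iff]
    refine ⟨fun _ => 1, fun h => one_ne_zero (congrFun h b), ?_⟩
    ext x
    rw [sub_mulVec, one_mulVec, Pi.sub_apply, Pi.zero_apply]
    unfold Pm mulVec dotProduct
    simp
  have h1 : updateRow (1 - Pm σ) b (Pi.single b 1) = 1 - (Matrix.of fun x y => if x = b then 0 else if σ x = y then 1 else 0) := by
    ext x y
    by_cases hx : x = b
    · subst hx
      rw [updateRow_self, Matrix.sub_apply, of_apply, if_pos rfl, sub_zero, Pi.single_apply, one_apply]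
      by_cases hy : y = x
      · rw [if_pos hy, if_pos hy.symm]
      · rw [if_neg hy, if_neg (fun h => hy h.symm)]
    · rw [updateRow_ne hx, Matrix.sub_apply, Matrix.sub_apply, of_apply, if_neg hx]
      rfl
  rw [h0, h1, zero_add]
  have hex : ∀ x, ∃ k : ℕ, σ^[k] x = b := fun x => h x b
  obtain ⟨d, hd⟩ : ∃ d : X → ℕ, d = fun x => Nat.find (hex x) := ⟨_, rfl⟩
  obtain ⟨N, hN⟩ : ∃ N, ∀ x, d x ≤ N := ⟨univ.sup d, fun x => le_sup (mem_univ x)⟩
  refine det_forward _ (fun x => N - d x) ?_
  intro x y hxy
  rw [of_apply]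
  split_ifs with h2 h3
  · rfl
  · exfalso
    have h4 : σ^[d x] x = b := by
      rw [hd]
      exact Nat.find_spec (hex x)
    have h5 : d x ≠ 0 := by
      intro h6
      rw [h6] at h4
      exact h2 h4
    obtain ⟨j, hj⟩ := Nat.exists_eq_succ_of_ne_zero h5
    rw [hj, Function.iterate_succ_apply, h3] at h4
    have h7 : d y ≤ j := by
      rw [hd]
      exact Nat.find_min' (hex y) h4
    have h8 := hN x
    omega
  · rfl

/-- more than one circuit -/
theorem det_circuits {τ : Equiv.Perm X} (b : X) (h : ¬ ∀ x y, ∃ k : ℕ, τ^[k] x = y) : (Wm τ b).det = 0 := by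
  classical
  push Not at h
  obtain ⟨x, y, hxy⟩ := h
  obtain ⟨C, ⟨x0, hC1⟩, hC2, hC3⟩ : ∃ C : X → Prop, (∃ x, C x) ∧ ¬ C b ∧ ∀ x, C (τ x) ↔ C x := by
    by_cases hb : τ.SameCycle x b
    · refine ⟨fun z => ¬ τ.SameCycle x z, ⟨y, ?_⟩, fun h => h hb, fun z => not_congr Equiv.Perm.sameCycle_apply_right⟩
      intro h
      obtain ⟨k, hk⟩ := h.exists_nat_pow_eq
      apply hxy k
      rw [Equiv.Perm.iterate_eq_pow]
      exact hk
    · exact ⟨fun z => τ.SameCycle x z, ⟨x, Equiv.Perm.SameCycle.refl _ _⟩, hb, fun z => Equiv.Perm.sameCycle_apply_right⟩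
  rw [← exists_mulVec_eq_zero_iff]
  refine ⟨fun z => if C z then 1 else 0, fun h => ?_, ?_⟩
  · have := congrFun h x0
    simp [hC1] at this
  · ext z
    unfold Wm
    rw [add_mulVec, sub_mulVec, one_mulVec, Pi.add_apply, Pi.sub_apply, Pi.zero_apply]
    have e1 : (Pm (τ : X → X) *ᵥ fun z => if C z then (1 : ℂ) else 0) z = if C z then 1 else 0 := by
      unfold Pm mulVec dotProduct
      simp only [of_apply, ite_mul, one_mul, zero_mul, sum_ite_eq, mem_univ, if_true]
      simp only [hC3]
    have e2 : (Matrix.single b b (1 : ℂ) *ᵥ fun z => if C z then (1 : ℂ) else 0) z = 0 := by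
      show ∑ y, Matrix.single b b (1 : ℂ) z y * (if C y then (1 : ℂ) else 0) = 0
      refine sum_eq_zero fun y _ => ?_
      rw [Matrix.single_apply]
      by_cases hy : b = z ∧ b = y
      · rw [← hy.2, if_neg hC2, mul_zero]
      · rw [if_neg hy, zero_mul]
    rw [e1, e2]
    ring

end walk

/-- a function affine in each variable -/
theorem multiaffine {ι : Type*} [Fintype ι] [DecidableEq ι] {D : (ι → ℂ) → ℂ}
    (h : ∀ p i t, D (Function.update p i t) = t * D (Function.update p i 1) + (1 - t) * D (Function.update p i 0)) (p : ι → ℂ) :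
    D p = ∑ F : Finset ι, (∏ i ∈ F, (1 - p i)) * (∏ i ∈ Fᶜ, p i) * D (fun i => if i ∈ F then 0 else 1) := by
  have key : ∀ s : Finset ι, D p = ∑ F ∈ s.powerset, (∏ i ∈ F, (1 - p i)) * (∏ i ∈ s \ F, p i) *
      D (fun i => if i ∈ F then 0 else if i ∈ s then 1 else p i) := by
    intro s
    induction s using Finset.induction_on with
    | empty => simp
    | insert a s ha ih =>
      rw [ih, sum_powerset_insert ha, ← sum_add_distrib]
      refine sum_congr rfl fun F hF => ?_
      have hFs := mem_powerset.1 hF
      have haF : a ∉ F := fun h => ha (hFs h)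
      have e1 : (fun i => if i ∈ F then (0 : ℂ) else if i ∈ s then 1 else p i) =
          Function.update (fun i => if i ∈ F then (0 : ℂ) else if i ∈ s then 1 else p i) a (p a) := by
        funext i
        by_cases hi : i = a
        · subst hi
          rw [Function.update_self, if_neg haF, if_neg ha]
        · rw [Function.update_of_ne hi]
      have e2 : Function.update (fun i => if i ∈ F then (0 : ℂ) else if i ∈ s then 1 else p i) a 1 =
          fun i => if i ∈ F then (0 : ℂ) else if i ∈ insert a s then 1 else p i := by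
        funext i
        by_cases hi : i = a
        · subst hi
          rw [Function.update_self, if_neg haF, if_pos (mem_insert_self _ _)]
        · rw [Function.update_of_ne hi]
          simp only [mem_insert, hi, false_or]
      have e3 : Function.update (fun i => if i ∈ F then (0 : ℂ) else if i ∈ s then 1 else p i) a 0 =
          fun i => if i ∈ insert a F then (0 : ℂ) else if i ∈ insert a s then 1 else p i := by
        funext i
        by_cases hi : i = a
        · subst hi
          rw [Function.update_self, if_pos (mem_insert_self _ _)]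
        · rw [Function.update_of_ne hi]
          simp only [mem_insert, hi, false_or]
      have e4 : insert a s \ F = insert a (s \ F) := insert_sdiff_of_notMem _ haF
      have e5 : insert a s \ insert a F = s \ F := by
        ext i
        simp only [mem_sdiff, mem_insert, not_or]
        constructor
        · rintro ⟨h1 | h1, h2, h3⟩
          · exact absurd h1 h2
          · exact ⟨h1, h3⟩
        · rintro ⟨h1, h2⟩
          exact ⟨Or.inr h1, fun h3 => ha (h3 ▸ h1), h2⟩
      rw [e1, h, e2, e3, e4, e5, prod_insert haF, prod_insert (fun h => ha (mem_sdiff.1 h).1)]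
      ring
  have h1 := key univ
  rw [powerset_univ] at h1
  rw [h1]
  refine sum_congr rfl fun F _ => ?_
  simp only [mem_univ, if_true, compl_eq_univ_sdiff]

section region

variable {ι : Type*} [Fintype ι] [DecidableEq ι]

/-- the matrix of the walk with the weights `p` and `1 - p` -/
def Mm (π : Equiv.Perm (ι × Bool)) (b : ι × Bool) (p : ι → ℂ) : Matrix (ι × Bool) (ι × Bool) ℂ :=
  Matrix.of fun x y => (if x = y then 1 else 0) - (p x.1 * (if π x = y then 1 else 0) +
    (1 - p x.1) * (if π (x.1, !x.2) = y then 1 else 0)) + (if b = x ∧ b = y then 1 else 0)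

theorem Mm_affine (π : Equiv.Perm (ι × Bool)) (b : ι × Bool) (p : ι → ℂ) (i : ι) (t : ℂ) :
    (Mm π b (Function.update p i t)).det = t * (Mm π b (Function.update p i 1)).det + (1 - t) * (Mm π b (Function.update p i 0)).det := by
  obtain ⟨N, hN⟩ : ∃ N : ℂ → Matrix (ι × Bool) (ι × Bool) ℂ, N = fun t => Mm π b (Function.update p i t) := ⟨_, rfl⟩
  obtain ⟨K, hK⟩ : ∃ K : Matrix (ι × Bool) (ι × Bool) ℂ, K = updateRow (N 0) (i, true) (N 0 (i, true) + N 0 (i, false)) := ⟨_, rfl⟩
  have hne : ((i, true) : ι × Bool) ≠ (i, false) := fun h => by simpa using congrArg Prod.snd h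
  have h1 : ∀ t, updateRow (N t) (i, true) (N t (i, true) + N t (i, false)) = updateRow K (i, false) (N t (i, false)) := by
    intro t
    ext x y
    by_cases h2 : x = (i, false)
    · subst h2
      rw [updateRow_self, updateRow_ne hne.symm]
    rw [updateRow_ne h2, hK]
    by_cases h3 : x = (i, true)
    · subst h3
      rw [updateRow_self, updateRow_self, hN]
      simp only [Pi.add_apply, Mm, of_apply, Function.update_self, Bool.not_true, Bool.not_false]
      ring
    · rw [updateRow_ne h3, updateRow_ne h3, hN]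
      have h4 : x.1 ≠ i := by
        intro h4
        rcases x with ⟨x1, x2⟩
        cases x2
        · exact h2 (by rw [← h4])
        · exact h3 (by rw [← h4])
      simp only [Mm, of_apply, Function.update_of_ne h4]
  have h5 : ∀ t, (N t).det = (updateRow K (i, false) (N t (i, false))).det := by
    intro t
    rw [← h1, det_updateRow_add_self _ hne]
  have h6 : N t (i, false) = t • N 1 (i, false) + (1 - t) • N 0 (i, false) := by
    ext y
    rw [hN]
    simp only [Pi.add_apply, Pi.smul_apply, Mm, of_apply, Function.update_self, smul_eq_mul]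
    ring
  have h7 : (N t).det = t * (N 1).det + (1 - t) * (N 0).det := by
    rw [h5 t, h5 1, h5 0, h6, det_updateRow_add, det_updateRow_smul, det_updateRow_smul]
  rw [hN] at h7
  exact h7

/-- the permutation -/
def fl (F : Finset ι) : Equiv.Perm (ι × Bool) :=
  Function.Involutive.toPerm (fun x => if x.1 ∈ F then (x.1, !x.2) else x) (fun x => by
    by_cases h : x.1 ∈ F
    · simp [h]
    · simp [h])

omit [Fintype ι] in
theorem fl_apply (F : Finset ι) (x : ι × Bool) : fl F x = if x.1 ∈ F then (x.1, !x.2) else x := rfl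

omit [Fintype ι] in
theorem step_eq (π : Equiv.Perm (ι × Bool)) (F : Finset ι) : Pool.Agent.Helper85.AT.step π F = ((fl F).trans π : Equiv.Perm (ι × Bool)) := rfl

omit [Fintype ι] in
theorem Mm_vertex (π : Equiv.Perm (ι × Bool)) (b : ι × Bool) (F : Finset ι) :
    Mm π b (fun i => if i ∈ F then 0 else 1) = Wm (Pool.Agent.Helper85.AT.step π F) b := by
  ext x y
  unfold Mm Wm Pm Pool.Agent.Helper85.AT.step
  rw [Matrix.add_apply, Matrix.sub_apply, of_apply, of_apply, one_apply, Matrix.single_apply]
  by_cases h : x.1 ∈ F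
  · simp only [h, if_true]
    ring
  · simp only [h, if_false]
    ring

open Classical in
theorem Mm_det (π : Equiv.Perm (ι × Bool)) (b : ι × Bool) (p : ι → ℂ) :
    (Mm π b p).det = ∑ F ∈ univ.filter (fun F : Finset ι => Pool.Agent.Helper85.AT.Ony π F), (∏ i ∈ F, (1 - p i)) * (∏ i ∈ Fᶜ, p i) := by
  rw [multiaffine (D := fun p => (Mm π b p).det) (fun p i t => Mm_affine π b p i t) p, sum_filter]
  refine sum_congr rfl fun F _ => ?_
  simp only [Mm_vertex]
  by_cases h : Pool.Agent.Helper85.AT.Ony π F
  · rw [if_pos h, det_circuit b h, mul_one]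
  · rw [if_neg h]
    have h1 : ¬ ∀ x y, ∃ k : ℕ, (((fl F).trans π : Equiv.Perm (ι × Bool)) : ι × Bool → ι × Bool)^[k] x = y := by
      rw [← step_eq]
      exact h
    rw [step_eq, det_circuits b h1, mul_zero]

end region

end Pool.Agent.Helper2.AT
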